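import Mathlib

set_option autoImplicit false

namespace Pool.Agent.Results.MP_a59f64_al.NotCoordinate

open MvPolynomial

universe u

variable (K : Type u) [Field K] (m : ℕ)

/-- first factor: fixes all variables except the first one -/
noncomputable def phi1 : MvPolynomial (Fin (m + 3)) K →ₐ[K] MvPolynomial (Fin (m + 3)) K :=
  aeval (Fin.cons (1 + 2 * X 0 * X 2 - X 1 * X 0 ^ 2) (fun j : Fin (m + 2) => X j.succ))

/-- second factor: an automorphism -/
noncomputable def sig : MvPolynomial (Fin (m + 3)) K →ₐ[K] MvPolynomial (Fin (m + 3)) K :=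
  aeval (Fin.cons (X 1) (Fin.cons (X 2 ^ 2 - X 0) (Fin.cons (X 2 + X 1 * (X 2 ^ 2 - X 0))
    (fun j : Fin m => X j.succ.succ.succ))))

/-- a left inverse of the second factor -/
noncomputable def sig' : MvPolynomial (Fin (m + 3)) K →ₐ[K] MvPolynomial (Fin (m + 3)) K :=
  aeval (Fin.cons ((X 2 - X 0 * X 1) ^ 2 - X 1) (Fin.cons (X 0) (Fin.cons (X 2 - X 0 * X 1)
    (fun j : Fin m => X j.succ.succ.succ))))

lemma fin_one_eq : (1 : Fin (m + 3)) = Fin.succ 0 := rfl
lemma fin_two_eq : (2 : Fin (m + 3)) = Fin.succ (Fin.succ 0) := rfl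

lemma phi1_zero : phi1 K m (X 0) = 1 + 2 * X 0 * X 2 - X 1 * X 0 ^ 2 := by
  simp [phi1]

lemma phi1_succ (j : Fin (m + 2)) : phi1 K m (X j.succ) = X j.succ := by
  simp [phi1]

lemma phi1_one : phi1 K m (X 1) = X 1 := by
  rw [fin_one_eq]; exact phi1_succ K m 0

lemma phi1_two : phi1 K m (X 2) = X 2 := by
  rw [fin_two_eq]; exact phi1_succ K m (Fin.succ 0)

lemma sig_zero : sig K m (X 0) = X 1 := by simp [sig]

lemma sig_one : sig K m (X 1) = X 2 ^ 2 - X 0 := by
  rw [fin_one_eq, sig, aeval_X, Fin.cons_succ, Fin.cons_zero]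

lemma sig_two : sig K m (X 2) = X 2 + X 1 * (X 2 ^ 2 - X 0) := by
  conv_lhs => rw [fin_two_eq, sig, aeval_X, Fin.cons_succ, Fin.cons_succ, Fin.cons_zero]

lemma sig_succ (j : Fin m) : sig K m (X j.succ.succ.succ) = X j.succ.succ.succ := by
  rw [sig, aeval_X, Fin.cons_succ, Fin.cons_succ, Fin.cons_succ]

lemma sig'_zero : sig' K m (X 0) = (X 2 - X 0 * X 1) ^ 2 - X 1 := by simp [sig']

lemma sig'_one : sig' K m (X 1) = X 0 := by
  rw [fin_one_eq, sig', aeval_X, Fin.cons_succ, Fin.cons_zero]

lemma sig'_two : sig' K m (X 2) = X 2 - X 0 * X 1 := by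
  conv_lhs => rw [fin_two_eq, sig', aeval_X, Fin.cons_succ, Fin.cons_succ, Fin.cons_zero]

lemma sig'_succ (j : Fin m) : sig' K m (X j.succ.succ.succ) = X j.succ.succ.succ := by
  rw [sig', aeval_X, Fin.cons_succ, Fin.cons_succ, Fin.cons_succ]

lemma sig_left_inv (f : MvPolynomial (Fin (m + 3)) K) : sig' K m (sig K m f) = f := by
  have h : (sig' K m).comp (sig K m) = AlgHom.id K _ := by
    apply MvPolynomial.algHom_ext
    intro i
    simp only [AlgHom.comp_apply, AlgHom.id_apply]
    refine Fin.cases ?_ (fun i => ?_) i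
    · rw [sig_zero, sig'_one]
    · refine Fin.cases ?_ (fun i => ?_) i
      · rw [← fin_one_eq, sig_one, map_sub, map_pow, sig'_two, sig'_zero]
        ring
      · refine Fin.cases ?_ (fun i => ?_) i
        · rw [← fin_two_eq, sig_two, map_add, map_mul, map_sub, map_pow, sig'_two, sig'_zero,
            sig'_one]
          ring
        · rw [sig_succ, sig'_succ]
  exact DFunLike.congr_fun h f

lemma sig_injective : Function.Injective (sig K m) :=
  Function.LeftInverse.injective (sig_left_inv K m)

/-- the one variable polynomial substituted by `phi1` -/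
noncomputable def gpol : Polynomial (MvPolynomial (Fin (m + 2)) K) :=
  1 + 2 * Polynomial.X * Polynomial.C (X 1) - Polynomial.C (X 0) * Polynomial.X ^ 2

lemma finSucc_phi1 (f : MvPolynomial (Fin (m + 3)) K) :
    finSuccEquiv K (m + 2) (phi1 K m f) = (finSuccEquiv K (m + 2) f).comp (gpol K m) := by
  have h : ((finSuccEquiv K (m + 2)).toAlgHom).comp (phi1 K m) =
      ((Polynomial.aeval (R := MvPolynomial (Fin (m + 2)) K) (gpol K m)).restrictScalars K).comp
        ((finSuccEquiv K (m + 2)).toAlgHom) := by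
    apply MvPolynomial.algHom_ext
    intro i
    refine Fin.cases ?_ (fun i => ?_) i
    · simp only [AlgHom.comp_apply, phi1_zero]
      have h1 : finSuccEquiv K (m + 2) (X 1) = Polynomial.C (X 0) := by
        rw [fin_one_eq]; exact finSuccEquiv_X_succ
      have h2 : finSuccEquiv K (m + 2) (X 2) = Polynomial.C (X 1) := by
        rw [fin_two_eq]; exact finSuccEquiv_X_succ
      have h3 : finSuccEquiv K (m + 2) 2 = 2 := map_ofNat _ 2
      simp [h1, h2, h3, finSuccEquiv_X_zero, gpol]
    · simp only [AlgHom.comp_apply, phi1_succ]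
      simp [finSuccEquiv_X_succ]
  have h' := DFunLike.congr_fun h f
  simpa [Polynomial.comp, Polynomial.aeval_def] using h'

lemma gpol_coeff_two : (gpol K m).coeff 2 = - X 0 := by
  have h : gpol K m = Polynomial.C 1 + Polynomial.C (2 * X 1) * Polynomial.X ^ 1
      - Polynomial.C (X 0) * Polynomial.X ^ 2 := by
    simp only [gpol, map_mul, map_one, map_ofNat]
    ring
  rw [h]
  simp [Polynomial.coeff_C_mul, Polynomial.coeff_X_pow, Polynomial.coeff_one]

lemma phi1_injective : Function.Injective (phi1 K m) := by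
  rw [injective_iff_map_eq_zero]
  intro f hf
  have h := finSucc_phi1 K m f
  rw [hf, map_zero] at h
  have h2 := (Polynomial.comp_eq_zero_iff).1 h.symm
  rcases h2 with h2 | ⟨_, h2⟩
  · exact (map_eq_zero_iff _ (finSuccEquiv K (m + 2)).injective).1 h2
  · exfalso
    have h3 := gpol_coeff_two K m
    rw [h2, Polynomial.coeff_C] at h3
    simp at h3

/-- the non-coordinate polynomial `x₃² - x₁ x₂` -/
noncomputable def pol : MvPolynomial (Fin (m + 3)) K := X 2 ^ 2 - X 0 * X 1

lemma image_pol : sig K m (phi1 K m (pol K m)) = X 0 := by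
  simp only [pol, map_sub, map_mul, map_pow, phi1_zero, phi1_one, phi1_two, sig_two, sig_one,
    sig_zero, map_add, map_one, map_ofNat]
  ring

/-- the gradient at the origin -/
noncomputable def grad : MvPolynomial (Fin (m + 3)) K →ₗ[K] (Fin (m + 3) → K) where
  toFun f := fun i => eval (0 : Fin (m + 3) → K) (pderiv i f)
  map_add' f g := by ext i; simp
  map_smul' c f := by ext i; simp

lemma grad_apply (f : MvPolynomial (Fin (m + 3)) K) (i : Fin (m + 3)) :
    grad K m f i = eval (0 : Fin (m + 3) → K) (pderiv i f) := rfl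

lemma grad_mul (f g : MvPolynomial (Fin (m + 3)) K) :
    grad K m (f * g) = (eval (0 : Fin (m + 3) → K) f) • grad K m g
      + (eval (0 : Fin (m + 3) → K) g) • grad K m f := by
  ext i
  simp [grad_apply, Derivation.leibniz]

lemma grad_X (j : Fin (m + 3)) : grad K m (X j) = Pi.single j 1 := by
  ext i
  rw [grad_apply, pderiv_X]
  by_cases h : i = j
  · subst h; simp
  · simp [h, Ne.symm h]

lemma grad_pol : grad K m (pol K m) = 0 := by
  rw [pol, map_sub, pow_two, grad_mul, grad_mul]
  simp

lemma span_grad (q : Fin (m + 3) → MvPolynomial (Fin (m + 3)) K)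
    (hq : Algebra.adjoin K (Set.range q) = ⊤) (f : MvPolynomial (Fin (m + 3)) K) :
    grad K m f ∈ Submodule.span K (Set.range (fun i => grad K m (q i))) := by
  have hf : f ∈ Algebra.adjoin K (Set.range q) := by rw [hq]; exact Algebra.mem_top
  refine Algebra.adjoin_induction (p := fun f _ => grad K m f ∈
    Submodule.span K (Set.range (fun i => grad K m (q i)))) ?_ ?_ ?_ ?_ hf
  · rintro x ⟨i, rfl⟩
    exact Submodule.subset_span ⟨i, rfl⟩
  · intro r
    have : grad K m (algebraMap K _ r) = 0 := by
      ext i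
      rw [grad_apply, MvPolynomial.algebraMap_eq, pderiv_C]
      simp
    rw [this]
    exact Submodule.zero_mem _
  · intro x y _ _ hx hy
    rw [map_add]
    exact Submodule.add_mem _ hx hy
  · intro x y _ _ hx hy
    rw [grad_mul]
    exact Submodule.add_mem _ (Submodule.smul_mem _ _ hy) (Submodule.smul_mem _ _ hx)

lemma not_coord (q : Fin (m + 3) → MvPolynomial (Fin (m + 3)) K)
    (hq : Algebra.adjoin K (Set.range q) = ⊤) : q 0 ≠ pol K m := by
  intro h0
  have hspan : (⊤ : Submodule K (Fin (m + 3) → K)) ≤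
      Submodule.span K (Set.range (fun i => grad K m (q i))) := by
    rw [← (Pi.basisFun K (Fin (m + 3))).span_eq, Submodule.span_le]
    rintro _ ⟨j, rfl⟩
    rw [Pi.basisFun_apply, ← grad_X K m j]
    exact span_grad K m q hq _
  have hli := linearIndependent_of_top_le_span_of_card_eq_finrank hspan (by simp)
  have hne := hli.ne_zero 0
  apply hne
  show grad K m (q 0) = 0
  rw [h0, grad_pol]

/-- For every field `K` and every `n = m + 3 ≥ 3` there are an injective endomorphism `φ` of the
polynomial algebra in `n` variables and a polynomial `p` with `φ p = x₁` such that `p` is not a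
coordinate polynomial. -/
theorem result (K : Type u) [Field K] (m : ℕ) :
    ∃ (p : MvPolynomial (Fin (m + 3)) K)
      (φ : MvPolynomial (Fin (m + 3)) K →ₐ[K] MvPolynomial (Fin (m + 3)) K),
      Function.Injective φ ∧ φ p = X 0 ∧
      ¬ ∃ q : Fin (m + 3) → MvPolynomial (Fin (m + 3)) K,
        q 0 = p ∧ Algebra.adjoin K (Set.range q) = ⊤ := by
  refine ⟨pol K m, (sig K m).comp (phi1 K m), ?_, ?_, ?_⟩
  · exact (sig_injective K m).comp (phi1_injective K m)
  · exact image_pol K m
  · rintro ⟨q, hq0, hq⟩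
    exact not_coord K m q hq hq0

end Pool.Agent.Results.MP_a59f64_al.NotCoordinate
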